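import Pool.Agent.V11246.Tg

/-!
# An infinite discrete space with a denumerable remainder but without the remainder `N(∞)`

The model is a symmetric extension of a countable elementary substructure of the sets of Lean. The
places are the pairs of a column and a natural number, where the columns are two shared columns
and one private column for every natural number `t`. A condition assigns pairwise disjoint infinite
sets of places to finitely many slots: every natural number `n` has a slot in each of the shared
columns, and every point `t` of the discrete space has a slot in its private column and a slot in
the second shared column. The group consists of the permutations of the places that fix the shared
columns, permute the private columns and act on all but finitely many private columns as on the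
first shared column; the supports are finite sets of sets of places with the same property. The
generic ultrafilters of the slots of the natural numbers in the first shared column give a compact
Hausdorff topology on `ω`, and the ones of the private columns give a compactification of the
discrete space with the remainder `ω`. A finite support decides only finitely many types of
points, and points of the same type can be exchanged; hence there is no sequence of infinite
almost disjoint traces of neighbourhoods, that is, no compactification has a remainder with
infinitely many isolated points that are numbered by the natural numbers.
-/

namespace Pool.Agent.Results.MP_ea9bab_gt.NoNInfRemainder

open FirstOrder FirstOrder.Language
open Pool.Agent.Helper672.Plain (LSet)
open Pool.Agent.H635Amen (ZF)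
open Pool.Agent.V11246 (DRD)

/-- There is a model of ZF with an infinite discrete space that has a denumerable remainder and
that does not have the remainder `N(∞)`. -/
theorem result : ∃ (N : Type 1) (_ : LSet.Structure N), ZF N ∧ ¬ DRD N := by
  obtain ⟨N, hL, hZ, h1, h2⟩ := Pool.Agent.Helper672.ZFA.V246S.exists_s
  exact ⟨N, hL, hZ, h1⟩

end Pool.Agent.Results.MP_ea9bab_gt.NoNInfRemainder
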